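import Pool.Agent.helper16.LW.Spec
import Pool.Agent.helper86.LV.All

set_option autoImplicit false

open Complex MeasureTheory

namespace Pool.Agent.LW

open Pool.Agent.ZD Pool.Agent.helper84.DM Pool.Agent.helper78.ED Pool.Agent.DH

theorem E1B_shift (N : ℕ) (a : ℕ → ℂ) (u v : ℝ) :
    DP N (fun n => a n * (n : ℂ) ^ ((v : ℂ) * I)) (u + v) = DP N a u := by
  unfold DP
  refine Finset.sum_congr rfl fun n hn => ?_
  have hn0 : (n : ℂ) ≠ 0 := by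
    have := (Finset.mem_Ioc.1 hn).1
    exact_mod_cast (by omega : n ≠ 0)
  rw [mul_assoc, ← Complex.cpow_add _ _ hn0]
  congr 2
  push_cast
  ring

theorem E1B_co (N : ℕ) (a : ℕ → ℂ) (h : Co N a) (v : ℝ) :
    Co N (fun n => a n * (n : ℂ) ^ ((v : ℂ) * I)) := by
  intro n hn
  have hn0 : 0 < n := by
    have := (Finset.mem_Ioc.1 hn).1
    omega
  have h1 : ‖(n : ℂ) ^ ((v : ℂ) * I)‖ = 1 := by
    rw [Complex.norm_natCast_cpow_of_pos hn0]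
    simp
  rw [norm_mul, h1, mul_one]
  exact h n hn

theorem E1B_sq (N : ℕ) (a : ℕ → ℂ) (h : Co N a) :
    ∑ n ∈ Finset.Ioc N (2 * N), ‖a n‖ ^ 2 ≤ N := by
  have h1 : ∑ n ∈ Finset.Ioc N (2 * N), ‖a n‖ ^ 2 ≤ ∑ n ∈ Finset.Ioc N (2 * N), (1 : ℝ) := by
    refine Finset.sum_le_sum fun n hn => ?_
    exact pow_le_one₀ (norm_nonneg _) (h n hn)
  refine h1.trans (le_of_eq ?_)
  rw [Finset.sum_const, Nat.card_Ioc, nsmul_eq_mul, mul_one]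
  congr 1
  omega

theorem E1B_norm (N : ℕ) (a : ℕ → ℂ) (h : Co N a) (u : ℝ) : ‖DP N a u‖ ≤ N := by
  unfold DP
  have h1 : ‖∑ n ∈ Finset.Ioc N (2 * N), a n * (n : ℂ) ^ (-((u : ℂ) * I))‖ ≤
      ∑ n ∈ Finset.Ioc N (2 * N), (1 : ℝ) := by
    refine (norm_sum_le _ _).trans (Finset.sum_le_sum fun n hn => ?_)
    have hn0 : 0 < n := by
      have := (Finset.mem_Ioc.1 hn).1
      omega
    rw [norm_mul, Complex.norm_natCast_cpow_of_pos hn0]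
    simp only [neg_re, mul_re, ofReal_re, I_re, mul_zero, ofReal_im, I_im, mul_one, sub_self,
      neg_zero, Real.rpow_zero]
    exact h n hn
  refine h1.trans (le_of_eq ?_)
  rw [Finset.sum_const, Nat.card_Ioc, nsmul_eq_mul, mul_one]
  congr 1
  omega

theorem E1B_count (ε CL : ℝ) (hCL : 0 < CL)
    (hL : ∀ (T : ℝ) (N : ℕ) (a : ℕ → ℂ) (V : ℝ) (W : Finset ℝ), 1 ≤ T → 1 ≤ N → (N : ℝ) ≤ T → 0 < V →
      (∀ t ∈ W, 0 ≤ t ∧ t ≤ T) → (∀ t ∈ W, ∀ s ∈ W, t ≠ s → 1 ≤ |t - s|) →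
      (∀ t ∈ W, V ≤ ‖∑ n ∈ Finset.Ioc N (2 * N), a n * (n : ℂ) ^ (-((t : ℂ) * Complex.I))‖) →
      CL * T ^ ε * (N : ℝ) ^ (1 / 2 : ℝ) * ∑ n ∈ Finset.Ioc N (2 * N), ‖a n‖ ^ 2 ≤ V ^ 2 →
      (W.card : ℝ) ≤ CL * T ^ ε * (N * (∑ n ∈ Finset.Ioc N (2 * N), ‖a n‖ ^ 2) / V ^ 2 +
        T ^ (1 / 2 : ℝ) * N * (∑ n ∈ Finset.Ioc N (2 * N), ‖a n‖ ^ 2) ^ 2 / V ^ 4))
    (J N : ℕ) (a : ℕ → ℂ) (V : ℝ) (hN : 1 ≤ N) (hNJ : N ≤ J) (hV : 0 < V) (ha : Co N a)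
    (hlow : CL * (2 * J : ℝ) ^ ε * (N : ℝ) ^ (3 / 2 : ℝ) ≤ V ^ 2) :
    (((IJ J).filter (fun j : ℤ => V < ‖DP N a (j : ℝ)‖)).card : ℝ) ≤
      CL * (2 * J : ℝ) ^ ε * ((N : ℝ) ^ 2 / V ^ 2 + (2 * J : ℝ) ^ (1 / 2 : ℝ) * (N : ℝ) ^ 3 / V ^ 4) := by
  classical
  set S := (IJ J).filter (fun j : ℤ => V < ‖DP N a (j : ℝ)‖) with hS
  have hinj : Set.InjOn (fun j : ℤ => (j : ℝ) + J) (S : Set ℤ) := by
    intro i _ j _ hij
    have h1 : (i : ℝ) + J = (j : ℝ) + J := hij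
    exact_mod_cast (add_right_cancel h1)
  have hcard : (S.image (fun j : ℤ => (j : ℝ) + J)).card = S.card := Finset.card_image_of_injOn hinj
  have hN1 : (1 : ℝ) ≤ N := by exact_mod_cast hN
  have hNJ1 : (N : ℝ) ≤ J := by exact_mod_cast hNJ
  set a' : ℕ → ℂ := fun n => a n * (n : ℂ) ^ (((J : ℝ) : ℂ) * I) with ha'
  have hco := E1B_co N a ha (J : ℝ)
  have hG := E1B_sq N a' hco
  have hG0 : 0 ≤ ∑ n ∈ Finset.Ioc N (2 * N), ‖a' n‖ ^ 2 :=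
    Finset.sum_nonneg fun _ _ => sq_nonneg _
  have hT0 : (0 : ℝ) ≤ (2 * J : ℝ) ^ ε := Real.rpow_nonneg (by positivity) _
  have hpow : (N : ℝ) ^ (1 / 2 : ℝ) * N = (N : ℝ) ^ (3 / 2 : ℝ) := by
    rw [← Real.rpow_add_one (by linarith)]
    norm_num
  have key := hL (2 * J) N a' V (S.image (fun j : ℤ => (j : ℝ) + J)) (by linarith) hN (by linarith) hV
    ?_ ?_ ?_ ?_
  · rw [hcard] at key
    refine key.trans ?_
    apply mul_le_mul_of_nonneg_left _ (mul_nonneg hCL.le hT0)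
    apply add_le_add
    · apply div_le_div_of_nonneg_right _ (by positivity)
      calc (N : ℝ) * ∑ n ∈ Finset.Ioc N (2 * N), ‖a' n‖ ^ 2 ≤ N * N :=
            mul_le_mul_of_nonneg_left hG (by linarith)
        _ = (N : ℝ) ^ 2 := by ring
    · apply div_le_div_of_nonneg_right _ (by positivity)
      calc (2 * J : ℝ) ^ (1 / 2 : ℝ) * N * (∑ n ∈ Finset.Ioc N (2 * N), ‖a' n‖ ^ 2) ^ 2
          ≤ (2 * J : ℝ) ^ (1 / 2 : ℝ) * N * (N : ℝ) ^ 2 := by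
            apply mul_le_mul_of_nonneg_left _ (by positivity)
            exact pow_le_pow_left₀ hG0 hG 2
        _ = (2 * J : ℝ) ^ (1 / 2 : ℝ) * (N : ℝ) ^ 3 := by ring
  · intro t ht
    obtain ⟨j, hj, rfl⟩ := Finset.mem_image.1 ht
    have h1 : j ∈ IJ J := (Finset.mem_filter.1 hj).1
    have h2 := Finset.mem_Ioo.1 h1
    have h3 : (-(J : ℝ)) < j := by exact_mod_cast h2.1
    have h4 : (j : ℝ) < J := by exact_mod_cast h2.2
    constructor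
    · show (0 : ℝ) ≤ (j : ℝ) + J
      linarith
    · show (j : ℝ) + J ≤ 2 * J
      linarith
  · intro t ht s hs hts
    obtain ⟨i, _, rfl⟩ := Finset.mem_image.1 ht
    obtain ⟨j, _, rfl⟩ := Finset.mem_image.1 hs
    have hij : i ≠ j := by
      rintro rfl
      exact hts rfl
    have h1 : (i : ℝ) + J - (j + J) = ((i - j : ℤ) : ℝ) := by push_cast; ring
    show (1 : ℝ) ≤ |(i : ℝ) + J - (j + J)|
    rw [h1, ← Int.cast_abs]
    exact_mod_cast Int.one_le_abs (sub_ne_zero.2 hij)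
  · intro t ht
    obtain ⟨j, hj, rfl⟩ := Finset.mem_image.1 ht
    have h1 := (Finset.mem_filter.1 hj).2
    have h2 : DP N a' ((j : ℝ) + (J : ℝ)) = DP N a j := E1B_shift N a j (J : ℝ)
    rw [← h2] at h1
    exact h1.le
  · refine le_trans ?_ hlow
    rw [← hpow]
    calc CL * (2 * J : ℝ) ^ ε * (N : ℝ) ^ (1 / 2 : ℝ) * ∑ n ∈ Finset.Ioc N (2 * N), ‖a' n‖ ^ 2
        ≤ CL * (2 * J : ℝ) ^ ε * (N : ℝ) ^ (1 / 2 : ℝ) * N :=
          mul_le_mul_of_nonneg_left hG (by positivity)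
      _ = CL * (2 * J : ℝ) ^ ε * ((N : ℝ) ^ (1 / 2 : ℝ) * N) := by ring

theorem E1B_log (ε : ℝ) (hε : 0 < ε) (J N : ℕ) (hN : 1 ≤ N) (hNJ : N ≤ J) :
    ((Nat.log 2 N + 1 : ℕ) : ℝ) ≤ (1 + 4 / ε) * (J : ℝ) ^ (ε / 2) := by
  have hN1 : (1 : ℝ) ≤ N := by exact_mod_cast hN
  have hNJ1 : (N : ℝ) ≤ J := by exact_mod_cast hNJ
  have h1 : (2 : ℝ) ^ (Nat.log 2 N) ≤ N := by
    exact_mod_cast Nat.pow_log_le_self 2 (by omega : N ≠ 0)
  have h2 : (Nat.log 2 N : ℝ) * Real.log 2 ≤ Real.log N := by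
    have := Real.log_le_log (by positivity) h1
    rwa [Real.log_pow] at this
  have h3 : (1 / 2 : ℝ) ≤ Real.log 2 := by
    have := Real.log_two_gt_d9
    linarith
  have h4 : Real.log N ≤ (N : ℝ) ^ (ε / 2) / (ε / 2) := Real.log_le_rpow_div (by linarith) (by linarith)
  have h5 : (N : ℝ) ^ (ε / 2) ≤ (J : ℝ) ^ (ε / 2) := Real.rpow_le_rpow (by linarith) hNJ1 (by linarith)
  have h6 : (1 : ℝ) ≤ (J : ℝ) ^ (ε / 2) := Real.one_le_rpow (by linarith) (by linarith)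
  have h7 : (0 : ℝ) ≤ (Nat.log 2 N : ℝ) := by positivity
  have h8 : (Nat.log 2 N : ℝ) ≤ 2 * Real.log N := by nlinarith
  have h9 : (N : ℝ) ^ (ε / 2) / (ε / 2) ≤ (J : ℝ) ^ (ε / 2) / (ε / 2) :=
    div_le_div_of_nonneg_right h5 (by linarith)
  have h10 : (J : ℝ) ^ (ε / 2) / (ε / 2) = (2 / ε) * (J : ℝ) ^ (ε / 2) := by
    field_simp
  push_cast
  have h11 : (1 + 4 / ε) * (J : ℝ) ^ (ε / 2) = (J : ℝ) ^ (ε / 2) + 2 * ((2 / ε) * (J : ℝ) ^ (ε / 2)) := by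
    ring
  linarith

theorem E1B : E1B_stmt := by
  classical
  intro ε hε
  obtain ⟨CL, hCL, hL⟩ := Pool.Agent.LV.large_values (ε / 2) (by linarith)
  set C : ℝ := 1 + 8 * CL * (2 : ℝ) ^ (ε / 2) * (1 + 4 / ε) with hC
  have h2pos : (0 : ℝ) < (2 : ℝ) ^ (ε / 2) := Real.rpow_pos_of_pos (by norm_num) _
  have he4 : 0 < 4 / ε := by positivity
  have hC1 : 1 ≤ C := by
    rw [hC]
    have : 0 ≤ 8 * CL * (2 : ℝ) ^ (ε / 2) * (1 + 4 / ε) := by positivity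
    linarith
  have hCC : CL * (2 : ℝ) ^ (ε / 2) ≤ C := by
    rw [hC]
    have h1 : 0 ≤ CL * (2 : ℝ) ^ (ε / 2) := by positivity
    have h2 : 8 * CL * (2 : ℝ) ^ (ε / 2) * (1 + 4 / ε) =
      8 * (CL * (2 : ℝ) ^ (ε / 2)) + 8 * (CL * (2 : ℝ) ^ (ε / 2)) * (4 / ε) := by ring
    have h3 : 0 ≤ 8 * (CL * (2 : ℝ) ^ (ε / 2)) * (4 / ε) := by positivity
    linarith
  refine ⟨C, by linarith, ?_⟩
  intro J N a U hN hNJ hU ha hlow
  have hN1 : (1 : ℝ) ≤ N := by exact_mod_cast hN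
  have hNJ1 : (N : ℝ) ≤ J := by exact_mod_cast hNJ
  have hJ1 : (1 : ℝ) ≤ J := by linarith
  have hJe : (1 : ℝ) ≤ (J : ℝ) ^ ε := Real.one_le_rpow hJ1 hε.le
  have hN32 : (1 : ℝ) ≤ (N : ℝ) ^ (3 / 2 : ℝ) := Real.one_le_rpow hN1 (by norm_num)
  have hU1 : 1 ≤ U := by
    have h1 : 1 ≤ C * (J : ℝ) ^ ε * (N : ℝ) ^ (3 / 2 : ℝ) := by
      have h2 : 1 ≤ C * (J : ℝ) ^ ε := by nlinarith
      nlinarith
    nlinarith
  have h2J : (2 * J : ℝ) ^ (ε / 2) = (2 : ℝ) ^ (ε / 2) * (J : ℝ) ^ (ε / 2) :=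
    Real.mul_rpow (by norm_num) (by linarith)
  have hJhalf : (J : ℝ) ^ (ε / 2) * (J : ℝ) ^ (ε / 2) = (J : ℝ) ^ ε := by
    rw [← Real.rpow_add (by linarith)]
    congr 1
    ring
  have hJh1 : (1 : ℝ) ≤ (J : ℝ) ^ (ε / 2) := Real.one_le_rpow hJ1 (by linarith)
  have hJhe : (J : ℝ) ^ (ε / 2) ≤ (J : ℝ) ^ ε := Real.rpow_le_rpow_of_exponent_le hJ1 (by linarith)
  have h2Jh : (2 * J : ℝ) ^ (1 / 2 : ℝ) ≤ 2 * (J : ℝ) ^ (1 / 2 : ℝ) := by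
    rw [Real.mul_rpow (by norm_num) (by linarith)]
    apply mul_le_mul_of_nonneg_right _ (Real.rpow_nonneg (by linarith) _)
    calc (2 : ℝ) ^ (1 / 2 : ℝ) ≤ (2 : ℝ) ^ (1 : ℝ) :=
          Real.rpow_le_rpow_of_exponent_le (by norm_num) (by norm_num)
      _ = 2 := Real.rpow_one 2
  set L : ℕ := Nat.log 2 N + 1 with hLdef
  have hNL : (N : ℝ) < (2 : ℝ) ^ L := by
    exact_mod_cast Nat.lt_pow_succ_log_self (by norm_num : 1 < 2) N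
  -- pointwise bound
  have hpt : ∀ j ∈ IJ J, F0 J N a j - FU J N a U j ≤
      ∑ i ∈ Finset.range L, if U * 2 ^ i < ‖DP N a (j : ℝ)‖ then 4 * (U * 2 ^ i) ^ 2 else 0 := by
    intro j hj
    have hw : wj J j ≤ 1 := by
      unfold wj
      have : 0 ≤ |(j : ℝ)| / J := by positivity
      linarith
    have hnn : ∀ i ∈ Finset.range L,
        0 ≤ (if U * 2 ^ i < ‖DP N a (j : ℝ)‖ then 4 * (U * 2 ^ i) ^ 2 else 0 : ℝ) := by
      intro i _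
      split_ifs
      · positivity
      · exact le_rfl
    by_cases hD : ‖DP N a (j : ℝ)‖ ≤ U
    · unfold FU
      rw [if_pos hD, sub_self]
      exact Finset.sum_nonneg hnn
    · unfold FU
      rw [if_neg hD, sub_zero]
      push Not at hD
      have hex : ∃ i : ℕ, ‖DP N a (j : ℝ)‖ ≤ U * 2 ^ i := by
        refine ⟨L, ?_⟩
        have h1 := E1B_norm N a ha j
        have h2 : (2 : ℝ) ^ L ≤ U * 2 ^ L := by
          have : (0 : ℝ) < (2 : ℝ) ^ L := by positivity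
          nlinarith
        linarith
      have hf := Nat.find_spec hex
      have hfL : Nat.find hex ≤ L := by
        apply Nat.find_min'
        have h1 := E1B_norm N a ha j
        have h2 : (2 : ℝ) ^ L ≤ U * 2 ^ L := by
          have : (0 : ℝ) < (2 : ℝ) ^ L := by positivity
          nlinarith
        linarith
      have hf0 : Nat.find hex ≠ 0 := by
        intro h0
        rw [h0, pow_zero, mul_one] at hf
        linarith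
      obtain ⟨i, hi⟩ := Nat.exists_eq_succ_of_ne_zero hf0
      have hmin : U * 2 ^ i < ‖DP N a (j : ℝ)‖ := by
        have := Nat.find_min hex (m := i) (by omega)
        push Not at this
        exact this
      have hiL : i ∈ Finset.range L := Finset.mem_range.2 (by omega)
      refine le_trans ?_ (Finset.single_le_sum hnn hiL)
      rw [if_pos hmin]
      rw [hi] at hf
      unfold F0
      calc wj J j * ‖DP N a (j : ℝ)‖ ^ 2 ≤ 1 * ‖DP N a (j : ℝ)‖ ^ 2 :=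
            mul_le_mul_of_nonneg_right hw (sq_nonneg _)
        _ ≤ (U * 2 ^ (i + 1)) ^ 2 := by
            rw [one_mul]
            exact pow_le_pow_left₀ (norm_nonneg _) hf 2
        _ = 4 * (U * 2 ^ i) ^ 2 := by ring
  refine (Finset.sum_le_sum hpt).trans ?_
  rw [Finset.sum_comm]
  set Z : ℝ := (N : ℝ) ^ 2 + (J : ℝ) ^ (1 / 2 : ℝ) * (N : ℝ) ^ 3 / U ^ 2 with hZ
  have hZ0 : 0 ≤ Z := by rw [hZ]; positivity
  have hlev : ∀ i ∈ Finset.range L,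
      ∑ j ∈ IJ J, (if U * 2 ^ i < ‖DP N a (j : ℝ)‖ then 4 * (U * 2 ^ i) ^ 2 else 0 : ℝ) ≤
        8 * CL * (2 : ℝ) ^ (ε / 2) * (J : ℝ) ^ (ε / 2) * Z := by
    intro i _
    rw [← Finset.sum_filter, Finset.sum_const, nsmul_eq_mul]
    have h2i : (1 : ℝ) ≤ 2 ^ i := one_le_pow₀ (by norm_num)
    set V : ℝ := U * 2 ^ i with hV
    have hUV : U ≤ V := by rw [hV]; nlinarith
    have hV0 : 0 < V := by linarith
    have hUV2 : U ^ 2 ≤ V ^ 2 := pow_le_pow_left₀ hU.le hUV 2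
    have hc := E1B_count (ε / 2) CL hCL hL J N a V hN hNJ hV0 ha (by
      refine le_trans ?_ (hlow.trans hUV2)
      apply mul_le_mul_of_nonneg_right _ (by linarith)
      rw [h2J]
      calc CL * ((2 : ℝ) ^ (ε / 2) * (J : ℝ) ^ (ε / 2)) = (CL * (2 : ℝ) ^ (ε / 2)) * (J : ℝ) ^ (ε / 2) := by
            ring
        _ ≤ C * (J : ℝ) ^ ε := mul_le_mul hCC hJhe (by linarith) (by linarith))
    have h1 : (((IJ J).filter (fun j : ℤ => V < ‖DP N a (j : ℝ)‖)).card : ℝ) * (4 * V ^ 2) ≤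
        (CL * (2 * J : ℝ) ^ (ε / 2) *
          ((N : ℝ) ^ 2 / V ^ 2 + (2 * J : ℝ) ^ (1 / 2 : ℝ) * (N : ℝ) ^ 3 / V ^ 4)) * (4 * V ^ 2) :=
      mul_le_mul_of_nonneg_right hc (by positivity)
    refine h1.trans ?_
    have h2 : (CL * (2 * J : ℝ) ^ (ε / 2) *
          ((N : ℝ) ^ 2 / V ^ 2 + (2 * J : ℝ) ^ (1 / 2 : ℝ) * (N : ℝ) ^ 3 / V ^ 4)) * (4 * V ^ 2) =
        4 * CL * (2 * J : ℝ) ^ (ε / 2) *
          ((N : ℝ) ^ 2 + (2 * J : ℝ) ^ (1 / 2 : ℝ) * (N : ℝ) ^ 3 / V ^ 2) := by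
      field_simp
    rw [h2, h2J]
    have h3 : (2 * J : ℝ) ^ (1 / 2 : ℝ) * (N : ℝ) ^ 3 / V ^ 2 ≤
        2 * ((J : ℝ) ^ (1 / 2 : ℝ) * (N : ℝ) ^ 3 / U ^ 2) := by
      calc (2 * J : ℝ) ^ (1 / 2 : ℝ) * (N : ℝ) ^ 3 / V ^ 2
          ≤ (2 * (J : ℝ) ^ (1 / 2 : ℝ)) * (N : ℝ) ^ 3 / V ^ 2 := by
            apply div_le_div_of_nonneg_right _ (by positivity)
            exact mul_le_mul_of_nonneg_right h2Jh (by positivity)
        _ ≤ (2 * (J : ℝ) ^ (1 / 2 : ℝ)) * (N : ℝ) ^ 3 / U ^ 2 := by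
            apply div_le_div_of_nonneg_left (by positivity) (by positivity) hUV2
        _ = 2 * ((J : ℝ) ^ (1 / 2 : ℝ) * (N : ℝ) ^ 3 / U ^ 2) := by ring
    have h4 : (N : ℝ) ^ 2 + (2 * J : ℝ) ^ (1 / 2 : ℝ) * (N : ℝ) ^ 3 / V ^ 2 ≤ 2 * Z := by
      rw [hZ]
      have : 0 ≤ (N : ℝ) ^ 2 := by positivity
      linarith
    calc 4 * CL * ((2 : ℝ) ^ (ε / 2) * (J : ℝ) ^ (ε / 2)) *
          ((N : ℝ) ^ 2 + (2 * J : ℝ) ^ (1 / 2 : ℝ) * (N : ℝ) ^ 3 / V ^ 2)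
        ≤ 4 * CL * ((2 : ℝ) ^ (ε / 2) * (J : ℝ) ^ (ε / 2)) * (2 * Z) :=
          mul_le_mul_of_nonneg_left h4 (by positivity)
      _ = 8 * CL * (2 : ℝ) ^ (ε / 2) * (J : ℝ) ^ (ε / 2) * Z := by ring
  refine (Finset.sum_le_sum hlev).trans ?_
  rw [Finset.sum_const, Finset.card_range, nsmul_eq_mul]
  have hlog := E1B_log ε hε J N hN hNJ
  rw [← hLdef] at hlog
  calc (L : ℝ) * (8 * CL * (2 : ℝ) ^ (ε / 2) * (J : ℝ) ^ (ε / 2) * Z)
      ≤ ((1 + 4 / ε) * (J : ℝ) ^ (ε / 2)) * (8 * CL * (2 : ℝ) ^ (ε / 2) * (J : ℝ) ^ (ε / 2) * Z) :=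
        mul_le_mul_of_nonneg_right hlog (by positivity)
    _ = (8 * CL * (2 : ℝ) ^ (ε / 2) * (1 + 4 / ε)) * ((J : ℝ) ^ (ε / 2) * (J : ℝ) ^ (ε / 2)) * Z := by
        ring
    _ = (8 * CL * (2 : ℝ) ^ (ε / 2) * (1 + 4 / ε)) * (J : ℝ) ^ ε * Z := by rw [hJhalf]
    _ ≤ C * (J : ℝ) ^ ε * Z := by
        apply mul_le_mul_of_nonneg_right _ hZ0
        apply mul_le_mul_of_nonneg_right _ (by linarith)
        rw [hC]
        linarith

end Pool.Agent.LW
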