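import Pool.Agent.helper16.LW.Spec

set_option autoImplicit false

open Complex MeasureTheory

namespace Pool.Agent.LW

open Pool.Agent.ZD Pool.Agent.helper84.DM Pool.Agent.helper78.ED Pool.Agent.DH

theorem GAU_gs (s : ℝ) : ProbabilityTheory.gaussianPDFReal 0 1 s = gs s := by
  unfold ProbabilityTheory.gaussianPDFReal gs
  simp only [NNReal.coe_one, mul_one, sub_zero]
  rw [neg_div, div_eq_inv_mul (Real.exp _)]

theorem GAU_co (N : ℕ) (a : ℕ → ℂ) (hN : 1 ≤ N) (ha : Co N a) : Co N (bc N a) := by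
  intro n hn
  have hn1 := Finset.mem_Ioc.1 hn
  have hN0 : (0 : ℝ) < N := by exact_mod_cast hN
  have hn0 : (N : ℝ) < n := by exact_mod_cast hn1.1
  have hn2 : (n : ℝ) ≤ 2 * N := by exact_mod_cast hn1.2
  have hx0 : 0 ≤ Real.log ((n : ℝ) / N) := by
    apply Real.log_nonneg
    rw [le_div_iff₀ hN0]
    linarith
  have hx1 : Real.log ((n : ℝ) / N) ≤ Real.log 2 := by
    apply Real.log_le_log (div_pos (by linarith) hN0)
    rw [div_le_iff₀ hN0]
    exact hn2
  have hl2 : Real.log 2 ≤ 1 := by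
    have := Real.log_two_lt_d9
    linarith
  have h1 : Real.log ((n : ℝ) / N) ^ 2 / 2 ≤ Real.log 2 := by nlinarith
  have h2 : Real.exp (Real.log ((n : ℝ) / N) ^ 2 / 2) ≤ 2 := by
    calc Real.exp (Real.log ((n : ℝ) / N) ^ 2 / 2) ≤ Real.exp (Real.log 2) := Real.exp_le_exp.2 h1
      _ = 2 := Real.exp_log (by norm_num)
  unfold bc
  rw [norm_mul, Complex.norm_real, Real.norm_eq_abs, abs_of_pos (by positivity)]
  calc ‖a n‖ * (Real.exp (Real.log ((n : ℝ) / N) ^ 2 / 2) / 2) ≤ 1 * 1 := by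
        apply mul_le_mul (ha n hn) (by linarith) (by positivity) (by norm_num)
    _ = 1 := by norm_num

theorem GAU_cont (N : ℕ) (b : ℕ → ℂ) (t : ℝ) : Continuous fun s : ℝ => DP N b (t + s) := by
  unfold DP
  refine continuous_finsetSum _ fun n hn => ?_
  have hn0 : (n : ℂ) ≠ 0 := by
    have := (Finset.mem_Ioc.1 hn).1
    exact_mod_cast (by omega : n ≠ 0)
  refine continuous_const.mul ?_
  refine Continuous.const_cpow (by fun_prop) (Or.inl hn0)

theorem GAU_bd (N : ℕ) (b : ℕ → ℂ) (u : ℝ) :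
    ‖DP N b u‖ ≤ ∑ n ∈ Finset.Ioc N (2 * N), ‖b n‖ := by
  unfold DP
  refine (norm_sum_le _ _).trans (Finset.sum_le_sum fun n hn => ?_)
  have hn0 : 0 < n := by
    have := (Finset.mem_Ioc.1 hn).1
    omega
  rw [norm_mul, Complex.norm_natCast_cpow_of_pos hn0]
  simp

theorem GAU_cf (x : ℝ) : ∫ s : ℝ, cexp ((((-x) * s : ℝ) : ℂ) * I)
    ∂(ProbabilityTheory.gaussianReal 0 1) = ((Real.exp (-(x ^ 2 / 2)) : ℝ) : ℂ) := by
  have h := charFun_apply_real (μ := ProbabilityTheory.gaussianReal 0 1) (-x)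
  rw [ProbabilityTheory.charFun_gaussianReal] at h
  have h1 : ∀ s : ℝ, cexp ((((-x) * s : ℝ) : ℂ) * I) = cexp (((-x : ℝ) : ℂ) * s * I) := by
    intro s
    push_cast
    ring_nf
  simp_rw [h1]
  rw [← h]
  push_cast
  congr 1
  simp

theorem GAU_mean (N : ℕ) (a : ℕ → ℂ) (hN : 1 ≤ N) (t : ℝ) :
    DP N a t = 2 * ∫ s : ℝ, DP N (bc N a) (t + s) * cexp (((s * Real.log N : ℝ) : ℂ) * I)
      ∂(ProbabilityTheory.gaussianReal 0 1) := by
  have hN0 : (0 : ℝ) < N := by exact_mod_cast hN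
  have hterm : ∀ n ∈ Finset.Ioc N (2 * N), ∀ s : ℝ,
      bc N a n * (n : ℂ) ^ (-(((t + s : ℝ) : ℂ) * I)) * cexp (((s * Real.log N : ℝ) : ℂ) * I) =
      bc N a n * (n : ℂ) ^ (-((t : ℂ) * I)) * cexp ((((-Real.log ((n : ℝ) / N)) * s : ℝ) : ℂ) * I) := by
    intro n hn s
    have hn0 : (0 : ℝ) < n := by
      have := (Finset.mem_Ioc.1 hn).1
      exact_mod_cast (by omega : 0 < n)
    have hnc : (n : ℂ) ≠ 0 := by exact_mod_cast hn0.ne'
    rw [mul_assoc, mul_assoc]
    congr 1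
    rw [Complex.cpow_def_of_ne_zero hnc, Complex.cpow_def_of_ne_zero hnc, ← Complex.exp_add,
      ← Complex.exp_add]
    congr 1
    have hlog : Complex.log (n : ℂ) = ((Real.log n : ℝ) : ℂ) := by
      rw [← Complex.ofReal_natCast, ← Complex.ofReal_log hn0.le]
    rw [hlog, Real.log_div hn0.ne' hN0.ne']
    push_cast
    ring
  have hsum : ∀ s : ℝ, DP N (bc N a) (t + s) * cexp (((s * Real.log N : ℝ) : ℂ) * I) =
      ∑ n ∈ Finset.Ioc N (2 * N), bc N a n * (n : ℂ) ^ (-((t : ℂ) * I)) *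
        cexp ((((-Real.log ((n : ℝ) / N)) * s : ℝ) : ℂ) * I) := by
    intro s
    unfold DP
    rw [Finset.sum_mul]
    exact Finset.sum_congr rfl fun n hn => hterm n hn s
  simp_rw [hsum]
  rw [integral_finsetSum]
  · rw [Finset.mul_sum]
    unfold DP
    refine Finset.sum_congr rfl fun n hn => ?_
    rw [integral_const_mul, GAU_cf]
    unfold bc
    have h2 : (((Real.exp (Real.log ((n : ℝ) / N) ^ 2 / 2) / 2 : ℝ) : ℂ)) *
        ((Real.exp (-(Real.log ((n : ℝ) / N) ^ 2 / 2)) : ℝ) : ℂ) = 1 / 2 := by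
      rw [← Complex.ofReal_mul, div_mul_eq_mul_div, ← Real.exp_add, add_neg_cancel, Real.exp_zero]
      push_cast
      ring
    calc a n * (n : ℂ) ^ (-((t : ℂ) * I))
        = 2 * (a n * (n : ℂ) ^ (-((t : ℂ) * I))) * (1 / 2) := by ring
      _ = 2 * (a n * (n : ℂ) ^ (-((t : ℂ) * I))) *
          ((((Real.exp (Real.log ((n : ℝ) / N) ^ 2 / 2) / 2 : ℝ) : ℂ)) *
            ((Real.exp (-(Real.log ((n : ℝ) / N) ^ 2 / 2)) : ℝ) : ℂ)) := by rw [h2]
      _ = _ := by ring
  · intro n _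
    apply Integrable.const_mul
    refine Integrable.of_bound (C := 1) ?_ ?_
    · exact (Continuous.aestronglyMeasurable (by fun_prop))
    · filter_upwards with s
      rw [Complex.norm_exp_ofReal_mul_I]

theorem GAU : GAU_stmt := by
  intro N a hN ha
  refine ⟨GAU_co N a hN ha, ?_⟩
  intro t
  set f : ℝ → ℝ := fun s => ‖DP N (bc N a) (t + s)‖ with hf
  have hfc : Continuous f := (GAU_cont N (bc N a) t).norm
  set B : ℝ := ∑ n ∈ Finset.Ioc N (2 * N), ‖bc N a n‖ with hB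
  have hfB : ∀ s, f s ≤ B := fun s => GAU_bd N (bc N a) (t + s)
  have hf0 : ∀ s, 0 ≤ f s := fun s => norm_nonneg _
  have hgsI : Integrable gs := by
    have h := ProbabilityTheory.integrable_gaussianPDFReal 0 1
    have h1 : ProbabilityTheory.gaussianPDFReal 0 1 = gs := by
      funext s
      exact GAU_gs s
    rwa [h1] at h
  constructor
  · have h1 : Integrable (fun s => gs s * f s ^ 4) := by
      refine hgsI.mul_bdd (c := B ^ 4) ?_ ?_
      · exact (hfc.pow 4).aestronglyMeasurable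
      · filter_upwards with s
        rw [Real.norm_eq_abs, abs_of_nonneg (by positivity)]
        exact pow_le_pow_left₀ (hf0 s) (hfB s) 4
    refine h1.congr ?_
    filter_upwards with s
    exact mul_comm _ _
  · have hmean := GAU_mean N a hN t
    have h1 : ‖DP N a t‖ ≤ 2 * ∫ s : ℝ, f s ∂(ProbabilityTheory.gaussianReal 0 1) := by
      rw [hmean, norm_mul]
      have h2 : ‖(2 : ℂ)‖ = 2 := by norm_num
      rw [h2]
      apply mul_le_mul_of_nonneg_left _ (by norm_num)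
      refine (norm_integral_le_integral_norm _).trans (le_of_eq ?_)
      congr 1
      funext s
      rw [norm_mul, Complex.norm_exp_ofReal_mul_I, mul_one]
    have hI : ∀ k : ℕ, Integrable (fun s => f s ^ k) (ProbabilityTheory.gaussianReal 0 1) := by
      intro k
      refine Integrable.of_bound (C := B ^ k) (hfc.pow k).aestronglyMeasurable ?_
      filter_upwards with s
      rw [Real.norm_eq_abs, abs_of_nonneg (pow_nonneg (hf0 s) k)]
      exact pow_le_pow_left₀ (hf0 s) (hfB s) k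
    have hJ : (∫ s : ℝ, f s ∂(ProbabilityTheory.gaussianReal 0 1)) ^ 4 ≤
        ∫ s : ℝ, f s ^ 4 ∂(ProbabilityTheory.gaussianReal 0 1) := by
      have hconv : ConvexOn ℝ Set.univ (fun x : ℝ => x ^ 4) :=
        Even.convexOn_pow (by decide : Even 4)
      have := hconv.map_integral_le (μ := ProbabilityTheory.gaussianReal 0 1) (f := f)
        (by fun_prop) isClosed_univ (by simp) (by simpa using hI 1) (hI 4)
      exact this
    have hpos : 0 ≤ ∫ s : ℝ, f s ∂(ProbabilityTheory.gaussianReal 0 1) :=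
      integral_nonneg hf0
    have hconv2 : ∫ s : ℝ, f s ^ 4 ∂(ProbabilityTheory.gaussianReal 0 1) =
        ∫ s : ℝ, f s ^ 4 * gs s := by
      rw [ProbabilityTheory.integral_gaussianReal_eq_integral_smul (by norm_num)]
      congr 1
      funext s
      rw [GAU_gs, smul_eq_mul, mul_comm]
    calc ‖DP N a t‖ ^ 4 ≤ (2 * ∫ s : ℝ, f s ∂(ProbabilityTheory.gaussianReal 0 1)) ^ 4 :=
          pow_le_pow_left₀ (norm_nonneg _) h1 4
      _ = 16 * (∫ s : ℝ, f s ∂(ProbabilityTheory.gaussianReal 0 1)) ^ 4 := by ring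
      _ ≤ 16 * ∫ s : ℝ, f s ^ 4 ∂(ProbabilityTheory.gaussianReal 0 1) := by linarith
      _ = 16 * ∫ s : ℝ, f s ^ 4 * gs s := by rw [hconv2]

end Pool.Agent.LW
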