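import Pool.Agent.helper16.LW.Spec

set_option autoImplicit false

open Complex MeasureTheory

namespace Pool.Agent.LW

open Pool.Agent.ZD Pool.Agent.helper84.DM Pool.Agent.helper78.ED Pool.Agent.DH

theorem K1A_kap (x y : ℝ) (h : |x| ≤ |y|) : kap y ≤ kap x := by
  unfold kap
  apply one_div_le_one_div_of_le (by positivity)
  have := sq_le_sq.2 h
  linarith

theorem K1A_log0 (A B : ℝ) (hA : 0 < A) (hB : 0 < B) : A - B ≤ A * (Real.log A - Real.log B) := by
  have h1 := Real.log_le_sub_one_of_pos (div_pos hB hA)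
  rw [Real.log_div hB.ne' hA.ne'] at h1
  have h2 : A * (B / A) = B := by field_simp
  nlinarith

theorem K1A_log (A B Q : ℝ) (hA : 0 < A) (hB : 0 < B) (hAQ : A ≤ Q) (hBQ : B ≤ Q) :
    |A - B| ≤ Q * |Real.log A - Real.log B| := by
  rcases le_total B A with h | h
  · rw [abs_of_nonneg (sub_nonneg.2 h), abs_of_nonneg (sub_nonneg.2 (Real.log_le_log hB h))]
    exact (K1A_log0 A B hA hB).trans
      (mul_le_mul_of_nonneg_right hAQ (sub_nonneg.2 (Real.log_le_log hB h)))
  · rw [abs_sub_comm A B, abs_sub_comm (Real.log A) (Real.log B),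
      abs_of_nonneg (sub_nonneg.2 h), abs_of_nonneg (sub_nonneg.2 (Real.log_le_log hA h))]
    exact (K1A_log0 B A hB hA).trans
      (mul_le_mul_of_nonneg_right hBQ (sub_nonneg.2 (Real.log_le_log hA h)))

theorem K1A_cont (f : ℝ → ℝ) (hf : Continuous f) : Continuous fun a => kap (f a) := by
  unfold kap
  exact Continuous.div continuous_const (by fun_prop) (fun x => by positivity)

theorem K1A (hKK : KK_stmt) (hGEO : GEO_stmt) : K1A_stmt := by
  intro J N M m m' n n' X κ hN hNX hJ hκ hκ1 hJX hm hmM hm' hm'M hmm hmm' hn hn2 hn' hn2'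
  have hJ0 : (0 : ℝ) ≤ J := by positivity
  have hN0 : (1 : ℝ) ≤ N := by exact_mod_cast hN
  have hX : 0 < X := by linarith
  have hm0 : (1 : ℝ) ≤ m := by exact_mod_cast hm
  have hm0' : (1 : ℝ) ≤ m' := by exact_mod_cast hm'
  have hmM0 : (m : ℝ) ≤ M := by exact_mod_cast hmM
  set h : ℝ := min (m : ℝ) m' with hh
  have hh1 : 1 ≤ h := le_min hm0 hm0'
  have hhm : h ≤ m := min_le_left _ _
  have hhm' : h ≤ m' := min_le_right _ _
  set z : ℝ := Real.log n - Real.log n' with hz
  set z' : ℝ := Real.log m' - Real.log m with hz'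
  set e5 : ℝ := Real.exp (-5) with he5
  have he50 : 0 < e5 := Real.exp_pos _
  have he51 : e5 ≤ 1 := by
    rw [he5]
    exact Real.exp_le_one_iff.2 (by norm_num)
  set K : ℝ := κ * X * e5 * h with hK
  have hK0 : 0 < K := by rw [hK]; positivity
  have hKJ : K ≤ J := by
    calc K = (κ * X) * (e5 * h) := by rw [hK]; ring
      _ ≤ (κ * X) * (1 * M) := by
        apply mul_le_mul_of_nonneg_left _ (by positivity)
        apply mul_le_mul he51 (by linarith) (by linarith) (by norm_num)
      _ = κ * (X * M) := by ring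
      _ ≤ J := hJX
  have hpt : ∀ a ∈ Set.Icc (-5 : ℝ) 5, kap (J * (a - z)) * kap (X * ((m : ℝ) * Real.exp a - m')) ≤
      kap (J * (a - z)) * kap (K * (a - z')) := by
    intro a ha
    have ha5 : |a| ≤ 5 := abs_le.2 ⟨ha.1, ha.2⟩
    have hg := (hGEO m m' a h hm hm' ha5 (by linarith)).1 hhm hhm'
    apply mul_le_mul_of_nonneg_left _ (by unfold kap; positivity)
    apply K1A_kap
    rw [abs_mul K (a - z'), abs_mul X, abs_of_pos hX, abs_of_pos hK0]
    calc K * |a - z'| = κ * (X * (e5 * h * |a - z'|)) := by rw [hK]; ring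
      _ ≤ 1 * (X * (e5 * h * |a - z'|)) :=
        mul_le_mul_of_nonneg_right hκ1 (by positivity)
      _ ≤ 1 * (X * |(m : ℝ) * Real.exp a - m'|) := by
        apply mul_le_mul_of_nonneg_left _ (by norm_num)
        exact mul_le_mul_of_nonneg_left hg hX.le
      _ = X * |(m : ℝ) * Real.exp a - m'| := one_mul _
  have hint : ∫ a in (-5 : ℝ)..5, kap (J * (a - z)) * kap (X * ((m : ℝ) * Real.exp a - m')) ≤
      ∫ a in (-5 : ℝ)..5, kap (J * (a - z)) * kap (K * (a - z')) := by
    apply intervalIntegral.integral_mono_on (by norm_num)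
    · apply Continuous.intervalIntegrable
      exact (K1A_cont _ (by fun_prop)).mul (K1A_cont _ (by fun_prop))
    · apply Continuous.intervalIntegrable
      exact (K1A_cont _ (by fun_prop)).mul (K1A_cont _ (by fun_prop))
    · exact hpt
  have hkk := hKK J K z z' hK0 hKJ
  have h1 := mul_le_mul_of_nonneg_left hint hJ0
  refine (h1.trans hkk).trans ?_
  apply mul_le_mul_of_nonneg_left _ (by norm_num)
  apply K1A_kap
  -- the last comparison
  have hn0 : (0 : ℝ) < n := by
    have : 0 < n := by omega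
    exact_mod_cast this
  have hn0' : (0 : ℝ) < n' := by
    have : 0 < n' := by omega
    exact_mod_cast this
  have hn20 : (n : ℝ) ≤ 2 * N := by exact_mod_cast hn2
  have hn20' : (n' : ℝ) ≤ 2 * N := by exact_mod_cast hn2'
  have hmm0 : (m : ℝ) ≤ 512 * m' := by exact_mod_cast hmm.le
  have hmm0' : (m' : ℝ) ≤ 512 * m := by exact_mod_cast hmm'.le
  have hmh : (m : ℝ) ≤ 512 * h := by
    rcases min_choice (m : ℝ) m' with h2 | h2
    · rw [hh, h2]; linarith
    · rw [hh, h2]; linarith
  have hmh' : (m' : ℝ) ≤ 512 * h := by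
    rcases min_choice (m : ℝ) m' with h2 | h2
    · rw [hh, h2]; linarith
    · rw [hh, h2]; linarith
  have hA : (n : ℝ) * m ≤ 1024 * (X * h) := by
    calc (n : ℝ) * m ≤ (2 * N) * (512 * h) := mul_le_mul hn20 hmh (by linarith) (by linarith)
      _ = 1024 * (N * h) := by ring
      _ ≤ 1024 * (X * h) := by
        apply mul_le_mul_of_nonneg_left _ (by norm_num)
        exact mul_le_mul_of_nonneg_right hNX (by linarith)
  have hB : (n' : ℝ) * m' ≤ 1024 * (X * h) := by
    calc (n' : ℝ) * m' ≤ (2 * N) * (512 * h) := mul_le_mul hn20' hmh' (by linarith) (by linarith)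
      _ = 1024 * (N * h) := by ring
      _ ≤ 1024 * (X * h) := by
        apply mul_le_mul_of_nonneg_left _ (by norm_num)
        exact mul_le_mul_of_nonneg_right hNX (by linarith)
  have hlog := K1A_log ((n : ℝ) * m) (n' * m') (1024 * (X * h)) (by positivity) (by positivity) hA hB
  have hzz : z - z' = Real.log ((n : ℝ) * m) - Real.log ((n' : ℝ) * m') := by
    rw [Real.log_mul hn0.ne' (by linarith), Real.log_mul hn0'.ne' (by linarith), hz, hz']
    ring
  rw [abs_mul K (z - z'), abs_mul (e5 * κ / 1024), abs_of_pos hK0,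
    abs_of_pos (by positivity : 0 < e5 * κ / 1024), hzz]
  calc e5 * κ / 1024 * |(n : ℝ) * m - n' * m'|
      ≤ e5 * κ / 1024 * (1024 * (X * h) * |Real.log ((n : ℝ) * m) - Real.log ((n' : ℝ) * m')|) :=
        mul_le_mul_of_nonneg_left hlog (by positivity)
    _ = K * |Real.log ((n : ℝ) * m) - Real.log ((n' : ℝ) * m')| := by rw [hK]; ring

end Pool.Agent.LW
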