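import Pool.Agent.helper16.LW.Spec

set_option autoImplicit false

open Complex MeasureTheory

namespace Pool.Agent.LW

open Pool.Agent.ZD Pool.Agent.helper84.DM Pool.Agent.helper78.ED Pool.Agent.DH

theorem KSM_gen (f : ℤ → ℝ) (hf0 : ∀ k, 0 ≤ f k) (hev : ∀ k, f (-k) = f k) (B : ℝ)
    (hB : ∀ n : ℕ, ∑ k ∈ Finset.Icc 1 n, f (k : ℤ) ≤ B) (S : Finset ℤ) :
    ∑ k ∈ S, f k ≤ f 0 + 2 * B := by
  classical
  set n : ℕ := S.sup Int.natAbs with hn
  set P : Finset ℤ := (Finset.Icc 1 n).image (fun k : ℕ => (k : ℤ)) with hP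
  set M : Finset ℤ := (Finset.Icc 1 n).image (fun k : ℕ => -(k : ℤ)) with hM
  have hsub : S ⊆ ({0} ∪ P) ∪ M := by
    intro k hk
    have hkn : k.natAbs ≤ n := Finset.le_sup (f := Int.natAbs) hk
    simp only [Finset.mem_union, Finset.mem_singleton, hP, hM, Finset.mem_image, Finset.mem_Icc]
    rcases lt_trichotomy k 0 with h | h | h
    · right
      exact ⟨k.natAbs, ⟨by omega, hkn⟩, by omega⟩
    · left; left; exact h
    · left; right
      exact ⟨k.natAbs, ⟨by omega, hkn⟩, by omega⟩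
  have hun : ∀ A C : Finset ℤ, ∑ k ∈ A ∪ C, f k ≤ ∑ k ∈ A, f k + ∑ k ∈ C, f k := by
    intro A C
    rw [← Finset.sum_union_inter]
    exact le_add_of_nonneg_right (Finset.sum_nonneg fun k _ => hf0 k)
  have hPs : ∑ k ∈ P, f k ≤ B := by
    have hi : Set.InjOn (fun k : ℕ => (k : ℤ)) (Finset.Icc 1 n : Finset ℕ) :=
      fun a _ b _ h => Int.natCast_inj.1 h
    rw [hP, Finset.sum_image hi]
    exact hB n
  have hMs : ∑ k ∈ M, f k ≤ B := by
    have hi : Set.InjOn (fun k : ℕ => -(k : ℤ)) (Finset.Icc 1 n : Finset ℕ) :=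
      fun a _ b _ h => Int.natCast_inj.1 (neg_injective h)
    rw [hM, Finset.sum_image hi]
    simp only [hev]
    exact hB n
  calc ∑ k ∈ S, f k ≤ ∑ k ∈ ({0} ∪ P) ∪ M, f k :=
        Finset.sum_le_sum_of_subset_of_nonneg hsub fun k _ _ => hf0 k
    _ ≤ ∑ k ∈ ({0} ∪ P), f k + ∑ k ∈ M, f k := hun _ _
    _ ≤ (∑ k ∈ ({0} : Finset ℤ), f k + ∑ k ∈ P, f k) + ∑ k ∈ M, f k := by
        have := hun {0} P
        linarith
    _ ≤ f 0 + 2 * B := by
        rw [Finset.sum_singleton]
        linarith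

theorem KSM_arctan (a b : ℝ) (ha : 0 ≤ a) (hab : a ≤ b) :
    (b - a) * kap b ≤ Real.arctan b - Real.arctan a := by
  rcases hab.eq_or_lt with rfl | hlt
  · simp
  · obtain ⟨c, hc, hcd⟩ := exists_deriv_eq_slope Real.arctan hlt
      Real.continuous_arctan.continuousOn Real.differentiable_arctan.differentiableOn
    rw [Real.deriv_arctan] at hcd
    beta_reduce at hcd
    have hba : 0 < b - a := sub_pos.2 hlt
    have h1 : kap b ≤ 1 / (1 + c ^ 2) := by
      unfold kap
      apply one_div_le_one_div_of_le (by positivity)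
      have h2 : c ^ 2 ≤ b ^ 2 := pow_le_pow_left₀ (by linarith [hc.1]) hc.2.le 2
      linarith
    rw [hcd, le_div_iff₀ hba] at h1
    linarith

theorem KSM : KSM_stmt := by
  intro c S hc
  have hf0 : ∀ k : ℤ, 0 ≤ kap (c * k) := fun k => by unfold kap; positivity
  have hev : ∀ k : ℤ, kap (c * (-k : ℤ)) = kap (c * k) := by
    intro k
    unfold kap
    push_cast
    ring_nf
  have h00 : kap (c * ((0 : ℤ) : ℝ)) = 1 := by
    unfold kap
    simp
  constructor
  · have h := KSM_gen (fun k : ℤ => kap (c * k)) hf0 hev (2 / c ^ 2) ?_ S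
    · rw [h00] at h
      have : 2 * (2 / c ^ 2) = 4 / c ^ 2 := by ring
      linarith
    · intro n
      have h1 : ∀ k ∈ Finset.Icc 1 n, kap (c * ((k : ℤ) : ℝ)) ≤ (1 / c ^ 2) * ((k : ℝ) ^ 2)⁻¹ := by
        intro k hk
        have hk1 : (1 : ℝ) ≤ k := by exact_mod_cast (Finset.mem_Icc.1 hk).1
        unfold kap
        rw [one_div, one_div, ← mul_inv]
        apply inv_anti₀ (by positivity)
        push_cast
        rw [mul_pow]
        linarith
      refine (Finset.sum_le_sum h1).trans ?_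
      rw [← Finset.mul_sum]
      have h2 : ∑ k ∈ Finset.Icc 1 n, ((k : ℝ) ^ 2)⁻¹ ≤ 2 := by
        have h3 := sum_Ioo_inv_sq_le (α := ℝ) 0 (n + 1)
        have h4 : Finset.Ioo 0 (n + 1) = Finset.Icc 1 n := by
          ext k
          simp only [Finset.mem_Ioo, Finset.mem_Icc]
          omega
        rw [h4] at h3
        norm_num at h3
        exact h3
      have h5 : (1 / c ^ 2) * ∑ k ∈ Finset.Icc 1 n, ((k : ℝ) ^ 2)⁻¹ ≤ (1 / c ^ 2) * 2 :=
        mul_le_mul_of_nonneg_left h2 (by positivity)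
      calc _ ≤ (1 / c ^ 2) * 2 := h5
        _ = 2 / c ^ 2 := by ring
  · have h := KSM_gen (fun k : ℤ => kap (c * k)) hf0 hev (2 / c) ?_ S
    · rw [h00] at h
      have : 2 * (2 / c) = 4 / c := by ring
      linarith
    · intro n
      have h1 : ∀ m : ℕ, c * ∑ k ∈ Finset.Icc 1 m, kap (c * ((k : ℤ) : ℝ)) ≤ Real.arctan (c * m) := by
        intro m
        induction m with
        | zero => simp
        | succ m ih =>
          rw [Finset.sum_Icc_succ_top (by omega), mul_add]
          have h2 := KSM_arctan (c * m) (c * ((m + 1 : ℕ) : ℝ)) (by positivity)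
            (mul_le_mul_of_nonneg_left (by push_cast; linarith) hc.le)
          have h3 : c * ((m + 1 : ℕ) : ℝ) - c * m = c := by push_cast; ring
          rw [h3] at h2
          have h4 : (((m + 1 : ℕ) : ℤ) : ℝ) = ((m + 1 : ℕ) : ℝ) := by push_cast; ring
          rw [h4]
          linarith
      have h5 := h1 n
      have h6 : Real.arctan (c * n) ≤ 2 := by
        have := Real.arctan_lt_pi_div_two (c * n)
        have := Real.pi_lt_four
        linarith
      show ∑ k ∈ Finset.Icc 1 n, kap (c * ((k : ℤ) : ℝ)) ≤ 2 / c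
      rw [le_div_iff₀ hc]
      linarith

end Pool.Agent.LW
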